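import Pool.Agent.R745.CDX.Defs

/-! Constant distance code pairs, alphabets of `6` and `7` letters: no context exists. -/

namespace R745CDX

open Finset H825CD

namespace XFAL

lemma cntna {ι : Type} [Fintype ι] [DecidableEq ι] {Q : ℕ} (A : Finset (ι → Fin (Q + 1)))
    (j : ι) (x : Fin (Q + 1)) : cnt A j {x} + na A j x = A.card := by
  unfold cnt na
  have h := Finset.card_filter_add_card_filter_not (s := A) (fun a : ι → Fin (Q + 1) => a j = x)
  simpa using h

lemma na_le {ι : Type} [Fintype ι] [DecidableEq ι] {Q : ℕ} (A : Finset (ι → Fin (Q + 1)))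
    (j : ι) (x : Fin (Q + 1)) : na A j x ≤ A.card := Finset.card_filter_le _ _

lemma cnt_empty {ι : Type} [Fintype ι] [DecidableEq ι] {Q : ℕ} (A : Finset (ι → Fin (Q + 1)))
    (j : ι) : cnt A j ∅ = 0 := by
  unfold cnt
  simp

lemma dv2 {X Y m e f : ℝ} (hX : 0 < X) (hY : 0 < Y) (h : e * f ≤ X * Y * m) :
    (e / X) * (f / Y) ≤ m := by
  rw [div_mul_div_comm, div_le_iff₀ (by positivity)]
  linarith

lemma dv3 {X Y m e f q : ℝ} (hX : 0 < X) (hY : 0 < Y) (h : q * (e * f) ≤ X * Y * m) :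
    q * ((e / X) * (f / Y)) ≤ m := by
  rw [div_mul_div_comm, ← mul_div_assoc, div_le_iff₀ (by positivity)]
  linarith

lemma gJ3 {X Y a b M Q : ℝ} (hX : 0 < X) (hY : 0 < Y)
    (h : Q * M + (X - a) * (Y - b) < X * Y) :
    Q * (M / (X * Y)) < a / X + b / Y - a / X * (b / Y) := by
  have e1 : Q * (M / (X * Y)) = (Q * M) / (X * Y) := by ring
  have e2 : a / X + b / Y - a / X * (b / Y) = (X * Y - (X - a) * (Y - b)) / (X * Y) := by
    field_simp; ring
  rw [e1, e2]
  exact div_lt_div_of_pos_right (by linarith) (by positivity)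

lemma gV {X Y p r w v R v' R' Q : ℝ} (hX : 0 < X) (hY : 0 < Y)
    (h : p * (r + 2 * Q * (w + (v + R)) + Q ^ 2 * (v' + R')) ≤ X * Y) :
    p / X * (r / Y + 2 * Q * (w / Y + (v / Y + R / Y)) + Q ^ 2 * (v' / Y + R' / Y)) ≤ 1 := by
  have e : p / X * (r / Y + 2 * Q * (w / Y + (v / Y + R / Y)) + Q ^ 2 * (v' / Y + R' / Y)) =
      (p * (r + 2 * Q * (w + (v + R)) + Q ^ 2 * (v' + R'))) / (X * Y) := by field_simp
  rw [e, div_le_one (by positivity)]
  exact h

lemma gP {aj ai p u P s zP U' P' : ℝ} {k K : ℕ} (h1 : 1 - aj - u - K * P ≤ p)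
    (h2 : ai = s + K * zP) (h3 : u + k * U' ≤ s) (h4 : P + k * P' ≤ zP) (hU : 0 ≤ U')
    (hP : 0 ≤ P') : 1 - aj - ai ≤ p := by
  have h5 : (0 : ℝ) ≤ k * U' := by positivity
  have h6 : (0 : ℝ) ≤ k * P' := by positivity
  have h7 : (K : ℝ) * P ≤ K * zP := mul_le_mul_of_nonneg_left (by linarith) (by positivity)
  linarith

/-- the facts on `A` (with respect to `B`) -/
structure Half (Q : ℕ) (m : ℝ) (k K : ℕ) (aj bj zj wj ai bi s zP wP
    Z10 U01 U11 P01 P11 W10 V01 V11 R01 R11 p r : ℝ) : Prop where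
  haj : aj = k * zj
  hJ1 : zj * (1 - bj + wj) ≤ m
  hai : ai = s + K * zP
  hI1 : (s + zP) * (1 - bi + wP) ≤ m
  c1 : U01 + k * U11 ≤ s
  c2 : P01 + k * P11 ≤ zP
  r1 : zj ≤ Z10 + U11 + K * P11
  hp2 : 1 - aj - U01 - K * P01 ≤ p
  q1 : 0 < p → (qb Q : ℝ) * ((Z10 + P11) * (V01 + R01 + (V11 + R11))) ≤ m
  q3 : (qb Q : ℝ) * ((Z10 + (U11 + P11)) * (R01 + R11)) ≤ m
  q5 : (qb Q : ℝ) * ((U11 + P11) * (r + W10)) ≤ m

lemma half (hone : X_one) (htwo : X_two) (h2a : X_s2a) (h2b : X_s2b) (hs : X_s1)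
    {ι : Type} [Fintype ι] [DecidableEq ι] {Q : ℕ} {S : Finset ι} {δ M : ℕ}
    {A B : Finset (ι → Fin (Q + 1))} (hc : Ctx S δ M A B) (hc' : Ctx S δ M B A)
    {j i : ι} (hj : j ∈ S) (hi : i ∈ S) (hij : i ≠ j)
    {x y : Fin (Q + 1)} (hcom : com A B j = {x}) (hcom' : com B A j = {x}) (hy : y ∈ com A B i)
    (hy' : y ∈ com B A i) (m : ℝ) (hm : (M : ℝ) = A.card * B.card * m) (hX : (0 : ℝ) < A.card)
    (hY : (0 : ℝ) < B.card) :
    Half Q m (pur A B j).card (pur A B i).card
      ((na A j x : ℝ) / A.card) ((na B j x : ℝ) / B.card)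
      ((nz A j x : ℝ) / A.card) ((nz B j x : ℝ) / B.card)
      ((na A i y : ℝ) / A.card) ((na B i y : ℝ) / B.card)
      ((cnt A i (com A B i \ {y}) : ℝ) / A.card) ((pcnt A i (pur A B i) : ℝ) / A.card)
      ((pcnt B i (pur B A i) : ℝ) / B.card)
      ((z10 A j i x y : ℝ) / A.card)
      ((e01 A j i x (com A B i \ {y}) : ℝ) / A.card) ((e11 A j i x (com A B i \ {y}) : ℝ) / A.card)
      ((e01 A j i x (pur A B i) : ℝ) / A.card) ((e11 A j i x (pur A B i) : ℝ) / A.card)
      ((z10 B j i x y : ℝ) / B.card)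
      ((e01 B j i x (com B A i \ {y}) : ℝ) / B.card) ((e11 B j i x (com B A i \ {y}) : ℝ) / B.card)
      ((e01 B j i x (pur B A i) : ℝ) / B.card) ((e11 B j i x (pur B A i) : ℝ) / B.card)
      ((p00 A j i x y : ℝ) / A.card) ((p00 B j i x y : ℝ) / B.card) := by
  have hxj : x ∈ com A B j := by rw [hcom]; exact Finset.mem_singleton_self x
  have hxj' : x ∈ com B A j := by rw [hcom']; exact Finset.mem_singleton_self x
  obtain ⟨j1, j2, j3⟩ := hone ι Q S δ M A B hc j hj x hxj
  obtain ⟨j1', -, -⟩ := hone ι Q S δ M B A hc' j hj x hxj'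
  obtain ⟨i1, i2, i3⟩ := hone ι Q S δ M A B hc i hi y hy
  rw [hcom, Finset.sdiff_self, cnt_empty, Nat.zero_add] at j1 j2
  rw [hcom', Finset.sdiff_self, cnt_empty, Nat.zero_add] at j1'
  rw [← j1] at j2
  rw [← j1'] at j3
  obtain ⟨t1, t2, t3, t4, t5, t6⟩ := htwo ι Q S δ M A B hc j hj i hi hij x y hcom hy
  obtain ⟨-, -, -, -, t5', t6'⟩ := htwo ι Q S δ M B A hc' j hj i hi hij x y hcom' hy'
  have A2a := h2a ι Q S δ M A B hc j hj i hi hij x y hcom hy
  have A2b := h2b ι Q S δ M A B hc j hj i hi hij x y hcom hy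
  have As1 := hs ι Q S δ M A B hc j hj i hi hij x y hcom hy
  rw [t5', t6'] at A2a
  rw [t6] at A2b As1
  rw [i1] at i3
  have lbj := na_le B j x
  have lbi := na_le B i y
  refine ⟨?_, ?_, ?_, ?_, ?_, ?_, ?_, ?_, ?_, ?_, ?_⟩
  · have h : (na A j x : ℝ) = (pur A B j).card * nz A j x := by exact_mod_cast j2
    rw [h, mul_div_assoc]
  · have h : ((nz A j x * (B.card - na B j x + nz B j x) : ℕ) : ℝ) ≤ M := by exact_mod_cast j3
    rw [Nat.cast_mul, Nat.cast_add, Nat.cast_sub lbj, hm] at h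
    have e : (1 - (na B j x : ℝ) / B.card + (nz B j x : ℝ) / B.card) =
      (B.card - na B j x + nz B j x) / B.card := by field_simp
    rw [e]
    exact dv2 hX hY h
  · have h : (na A i y : ℝ) = cnt A i (com A B i \ {y}) +
        (pur A B i).card * pcnt A i (pur A B i) := by exact_mod_cast i2
    rw [h, add_div, mul_div_assoc]
  · have h : (((cnt A i (com A B i \ {y}) + pcnt A i (pur A B i)) *
        (B.card - na B i y + pcnt B i (pur B A i)) : ℕ) : ℝ) ≤ M := by exact_mod_cast i3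
    rw [Nat.cast_mul, Nat.cast_add, Nat.cast_add, Nat.cast_sub lbi, hm] at h
    have e : (1 - (na B i y : ℝ) / B.card + (pcnt B i (pur B A i) : ℝ) / B.card) =
      (B.card - na B i y + pcnt B i (pur B A i)) / B.card := by field_simp
    rw [e, ← add_div]
    exact dv2 hX hY h
  · have h : (e01 A j i x (com A B i \ {y}) : ℝ) +
        (pur A B j).card * e11 A j i x (com A B i \ {y}) ≤ cnt A i (com A B i \ {y}) := by
      exact_mod_cast t3
    rw [← mul_div_assoc, ← add_div]
    exact div_le_div_of_nonneg_right h hX.le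
  · have h : (e01 A j i x (pur A B i) : ℝ) +
        (pur A B j).card * e11 A j i x (pur A B i) ≤ pcnt A i (pur A B i) := by
      exact_mod_cast t4
    rw [← mul_div_assoc, ← add_div]
    exact div_le_div_of_nonneg_right h hX.le
  · have h : (nz A j x : ℝ) ≤ z10 A j i x y + e11 A j i x (com A B i \ {y}) +
        (pur A B i).card * e11 A j i x (pur A B i) := by exact_mod_cast t2
    rw [← mul_div_assoc, ← add_div, ← add_div]
    exact div_le_div_of_nonneg_right h hX.le
  · have h : (A.card : ℝ) ≤ p00 A j i x y + na A j x + e01 A j i x (com A B i \ {y}) +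
        (pur A B i).card * e01 A j i x (pur A B i) := by exact_mod_cast t1
    rw [le_div_iff₀ hX]
    have e : (1 - (na A j x : ℝ) / A.card - (e01 A j i x (com A B i \ {y}) : ℝ) / A.card -
        (pur A B i).card * ((e01 A j i x (pur A B i) : ℝ) / A.card)) * A.card =
        A.card - na A j x - e01 A j i x (com A B i \ {y}) -
          (pur A B i).card * e01 A j i x (pur A B i) := by field_simp
    rw [e]
    linarith
  · intro hp
    have hp0 : p00 A j i x y ≠ 0 := by
      intro h0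
      rw [h0] at hp
      simp at hp
    have h : (qb Q : ℝ) * (((z10 A j i x y : ℝ) + e11 A j i x (pur A B i)) *
        ((e01 B j i x (com B A i \ {y}) : ℝ) + e01 B j i x (pur B A i) +
          (e11 B j i x (com B A i \ {y}) + e11 B j i x (pur B A i)))) ≤ M := by
      exact_mod_cast A2a hp0
    rw [hm] at h
    rw [← add_div, ← add_div, ← add_div, ← add_div]
    exact dv3 hX hY h
  · have h : (qb Q : ℝ) * (((z10 A j i x y : ℝ) + (e11 A j i x (com A B i \ {y}) +
        e11 A j i x (pur A B i))) *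
        ((e01 B j i x (pur B A i) : ℝ) + e11 B j i x (pur B A i))) ≤ M := by
      exact_mod_cast A2b
    rw [hm] at h
    rw [← add_div, ← add_div, ← add_div]
    exact dv3 hX hY h
  · have h : (qb Q : ℝ) * (((e11 A j i x (com A B i \ {y}) : ℝ) +
        e11 A j i x (pur A B i)) * ((p00 B j i x y : ℝ) + z10 B j i x y)) ≤ M := by
      exact_mod_cast As1
    rw [hm] at h
    rw [← add_div, ← add_div]
    exact dv3 hX hY h

end XFAL

lemma FinX.swap {Q : ℕ} {m : ℝ} {k l K L : ℕ} {aj bj zj wj ai bi s zP t wP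
    Z10 U01 U11 P01 P11 W10 V01 V11 R01 R11 p r : ℝ}
    (h : FinX Q m k l K L aj bj zj wj ai bi s zP t wP Z10 U01 U11 P01 P11 W10 V01 V11 R01 R11 p r) :
    FinX Q m l k L K bj aj wj zj bi ai t wP s zP W10 V01 V11 R01 R11 Z10 U01 U11 P01 P11 r p :=
  { hm := h.hm, hm0 := h.hm0, hk := h.hl, hl := h.hk,
    hkl := by have := h.hkl; omega,
    hKL := by
      rcases h.hKL with h1 | ⟨h1, h2, h3⟩
      · left; omega
      · right; exact ⟨by omega, h3, h2⟩
    haj0 := h.hbj0, hbj0 := h.haj0, hai0 := h.hbi0, hbi0 := h.hai0, haj2 := h.hbj2,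
    hbj2 := h.haj2, hai2 := h.hbi2, hbi2 := h.hai2, haj := h.hbj, hbj := h.haj,
    hJ1 := h.hJ2, hJ2 := h.hJ1, hJ3 := by linarith [h.hJ3, mul_comm aj bj],
    hs := h.ht, hzP := h.hwP, ht := h.hs, hwP := h.hzP,
    hai := h.hbi, hbi := h.hai, hI1 := h.hI2, hI2 := h.hI1,
    hZ10 := h.hW10, hU01 := h.hV01, hU11 := h.hV11, hP01 := h.hR01, hP11 := h.hR11,
    hW10 := h.hZ10, hV01 := h.hU01, hV11 := h.hU11, hR01 := h.hP01, hR11 := h.hP11,
    c1 := h.c3, c2 := h.c4, c3 := h.c1, c4 := h.c2, r1 := h.r2, r2 := h.r1,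
    hp := h.hr, hr := h.hp, hp2 := h.hr2, hr2 := h.hp2,
    q1 := h.q2, q2 := h.q1, q3 := h.q4, q4 := h.q3, q5 := h.q6, q6 := h.q5 }

theorem tX_false (hsy : S_symm) (hst : S_struct) (hcr : S_crit) (hfi : S_fib)
    (hs1 : S_split1) (hV : S_V) (hpa : S_partner) (_hFF : S_FF) (hco : X_coord)
    (hone : X_one) (htwo : X_two) (h2a : X_s2a) (h2b : X_s2b) (hs : X_s1)
    (hf : ∀ Q : ℕ, (Q = 5 ∨ Q = 6) → X_final Q) (ht : ∀ Q : ℕ, (Q = 5 ∨ Q = 6) → X_twin Q) :
    X_false := by
  intro ι _ _ Q S δ M A B hQ hc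
  have hQ1 : 1 ≤ Q := by omega
  have hc' := hsy ι Q S δ M A B hc
  obtain ⟨j, hj, hjc⟩ := hcr ι Q S δ M A B hc
  obtain ⟨hdom, hone1⟩ := hco ι Q S δ M A B hQ hc j hj
  obtain ⟨x, hcom⟩ := Finset.card_eq_one.mp (hone1 hjc)
  have hcom' : com B A j = {x} := by
    rw [← hcom]; unfold com; exact Finset.inter_comm _ _
  have hx : x ∈ com A B j := by rw [hcom]; exact Finset.mem_singleton_self x
  have hx' : x ∈ com B A j := by rw [hcom']; exact Finset.mem_singleton_self x
  have hVpos : 0 < A.card * B.card := lt_of_le_of_lt (Nat.zero_le _) hc.big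
  have hA0 : 0 < A.card := by
    rcases Nat.eq_zero_or_pos A.card with h0 | h0
    · rw [h0] at hVpos; simp at hVpos
    · exact h0
  have hB0 : 0 < B.card := by
    rcases Nat.eq_zero_or_pos B.card with h0 | h0
    · rw [h0] at hVpos; simp at hVpos
    · exact h0
  have cA := XFAL.cntna A j x
  have cB := XFAL.cntna B j x
  -- the critical inequality
  have hj3 : Q * M + cnt A j {x} * cnt B j {x} < A.card * B.card := by
    refine lt_of_le_of_lt ?_ hjc
    refine Nat.add_le_add_left ?_ _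
    exact Finset.single_le_sum (f := fun x : Fin (Q + 1) => cnt A j {x} * cnt B j {x})
      (fun _ _ => Nat.zero_le _) (Finset.mem_univ x)
  have hst1 := (hst ι Q δ A B hc.dist j).2.2.2.2
  rw [hcom, Finset.card_singleton] at hst1
  obtain ⟨f1, -⟩ := hfi ι Q δ A B hc.dist j x hx
  obtain ⟨g1, -⟩ := hfi ι Q δ B A hc'.dist j x hx'
  obtain ⟨s1, -⟩ := hs1 ι Q S δ M A B hc j hj x
  obtain ⟨s2, -⟩ := hs1 ι Q S δ M B A hc' j hj x
  have hna : na A j x ≠ 0 := by
    intro h0
    rw [h0] at cA s2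
    have hL : max 1 (pur B A j).card ≤ Q := by
      exact max_le hQ1 (by omega)
    have h1 : cnt A j {x} = A.card := by omega
    rw [h1] at hj3
    have h2 : Q * M < A.card * na B j x := by
      have : A.card * B.card = A.card * cnt B j {x} + A.card * na B j x := by
        rw [← cB, Nat.mul_add]
      omega
    have h3 : A.card * na B j x ≤ Q * M := by
      calc A.card * na B j x ≤ A.card * (max 1 (pur B A j).card * nz B j x) :=
            Nat.mul_le_mul_left _ g1
        _ = max 1 (pur B A j).card * (nz B j x * (A.card - 0)) := by rw [Nat.sub_zero]; ring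
        _ ≤ Q * M := Nat.mul_le_mul hL s2
    omega
  have hnb : na B j x ≠ 0 := by
    intro h0
    rw [h0] at cB s1
    have hL : max 1 (pur A B j).card ≤ Q := by
      exact max_le hQ1 (by omega)
    have h1 : cnt B j {x} = B.card := by omega
    rw [h1] at hj3
    have h2 : Q * M < B.card * na A j x := by
      have : A.card * B.card = cnt A j {x} * B.card + B.card * na A j x := by
        rw [← cA]; ring
      omega
    have h3 : B.card * na A j x ≤ Q * M := by
      calc B.card * na A j x ≤ B.card * (max 1 (pur A B j).card * nz A j x) :=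
            Nat.mul_le_mul_left _ f1
        _ = max 1 (pur A B j).card * (nz A j x * (B.card - 0)) := by rw [Nat.sub_zero]; ring
        _ ≤ Q * M := Nat.mul_le_mul hL s1
    omega
  -- `x` dominates at `j`
  have hnc : ∀ y : Fin (Q + 1), na A j y ≠ 0 ∧ na B j y ≠ 0 := by
    intro y
    by_cases hyx : y = x
    · subst hyx; exact ⟨hna, hnb⟩
    · have hx2 := hx
      unfold com used at hx2
      rw [Finset.mem_inter, Finset.mem_image, Finset.mem_image] at hx2
      obtain ⟨⟨a, ha, hax⟩, ⟨b, hb, hbx⟩⟩ := hx2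
      constructor
      · unfold na
        rw [Finset.card_ne_zero]
        exact ⟨a, Finset.mem_filter.mpr ⟨ha, by rw [hax]; exact fun h => hyx h.symm⟩⟩
      · unfold na
        rw [Finset.card_ne_zero]
        exact ⟨b, Finset.mem_filter.mpr ⟨hb, by rw [hbx]; exact fun h => hyx h.symm⟩⟩
  obtain ⟨x', hx1, hxA, hxB⟩ := hdom hnc
  rw [hcom, Finset.mem_singleton] at hx1
  subst hx1
  -- the partner
  obtain ⟨i, hi, hij, hin⟩ := hpa ι Q S δ A B hc.supA hc.supB hc.dist j x' hcom hna hnb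
  obtain ⟨hdomi, -⟩ := hco ι Q S δ M A B hQ hc i hi
  obtain ⟨y, hy, hyA, hyB⟩ := hdomi hin
  obtain ⟨hia, hib⟩ := hin y
  have hy' : y ∈ com B A i := by
    unfold com at hy ⊢; rw [Finset.inter_comm]; exact hy
  have hX : (0 : ℝ) < A.card := by exact_mod_cast hA0
  have hY : (0 : ℝ) < B.card := by exact_mod_cast hB0
  have HA := XFAL.half hone htwo h2a h2b hs hc hc' hj hi hij hcom hcom' hy hy'
    ((M : ℝ) / (A.card * B.card)) (by field_simp) hX hY
  have HB := XFAL.half hone htwo h2a h2b hs hc' hc hj hi hij hcom' hcom hy' hy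
    ((M : ℝ) / (A.card * B.card)) (by field_simp) hY hX
  obtain ⟨-, -, -, -, t5, t6⟩ := htwo ι Q S δ M A B hc j hj i hi hij x' y hcom hy
  obtain ⟨-, -, -, -, t5', t6'⟩ := htwo ι Q S δ M B A hc' j hj i hi hij x' y hcom' hy'
  have hsti := (hst ι Q δ A B hc.dist i).2.2.2.2
  have laj := XFAL.na_le A j x'
  have lbj := XFAL.na_le B j x'
  have hcomm : com B A i = com A B i := by unfold com; exact Finset.inter_comm _ _
  have hKL : (pur A B i).card + (pur B A i).card + 1 ≤ Q ∨
      ((pur A B i).card + (pur B A i).card ≤ Q ∧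
        (cnt A i (com A B i \ {y}) : ℝ) / A.card = 0 ∧
        (cnt B i (com B A i \ {y}) : ℝ) / B.card = 0) := by
    have h1 : 1 ≤ (com A B i).card := Finset.card_pos.mpr ⟨y, hy⟩
    rcases Nat.lt_or_ge 1 (com A B i).card with h2 | h2
    · left; omega
    · right
      have h3 : (com A B i).card = 1 := le_antisymm h2 h1
      obtain ⟨u, hu⟩ := Finset.card_eq_one.mp h3
      have huy : u = y := by
        rw [hu, Finset.mem_singleton] at hy
        exact hy.symm
      subst huy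
      refine ⟨by omega, ?_, ?_⟩
      · rw [hu, Finset.sdiff_self, XFAL.cnt_empty]; simp
      · rw [hcomm, hu, Finset.sdiff_self, XFAL.cnt_empty]; simp
  have hpos : ∀ (n d : ℕ), n ≠ 0 → (0 : ℝ) < d → 0 < (n : ℝ) / d := by
    intro n d hn hd
    have : (0 : ℝ) < n := by exact_mod_cast Nat.pos_of_ne_zero hn
    positivity
  have hhalf : ∀ (n d : ℕ), 2 * n ≤ d → (0 : ℝ) < d → (n : ℝ) / d ≤ 1 / 2 := by
    intro n d hn hd
    have h : (2 : ℝ) * n ≤ d := by exact_mod_cast hn
    rw [div_le_iff₀ hd]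
    linarith
  have hnn : ∀ (n d : ℕ), 0 ≤ (n : ℝ) / d := fun n d => by positivity
  have haj0 := hpos _ _ hna hX
  have hbj0 := hpos _ _ hnb hY
  have hbj2 := hhalf _ _ hxB hY
  have hk : 1 ≤ (pur A B j).card := by
    rcases Nat.eq_zero_or_pos (pur A B j).card with h0 | h0
    · have h1 := HA.haj
      rw [h0] at h1
      simp only [Nat.cast_zero, zero_mul] at h1
      rw [h1] at haj0
      exact absurd haj0 (lt_irrefl _)
    · exact h0
  have hl : 1 ≤ (pur B A j).card := by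
    rcases Nat.eq_zero_or_pos (pur B A j).card with h0 | h0
    · have h1 := HB.haj
      rw [h0] at h1
      simp only [Nat.cast_zero, zero_mul] at h1
      rw [h1] at hbj0
      exact absurd hbj0 (lt_irrefl _)
    · exact h0
  have hzj : 0 < (nz A j x' : ℝ) / A.card := by
    have h1 := HA.haj
    by_contra hcon
    have hz0 : (nz A j x' : ℝ) / A.card = 0 := le_antisymm (not_lt.mp hcon) (hnn _ _)
    rw [hz0, mul_zero] at h1
    rw [h1] at haj0
    exact absurd haj0 (lt_irrefl _)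
  have hm0 : (0 : ℝ) < M / (A.card * B.card) := by
    have h2 : 0 < 1 - (na B j x' : ℝ) / B.card + (nz B j x' : ℝ) / B.card := by
      have := hnn (nz B j x') B.card
      linarith
    exact lt_of_lt_of_le (mul_pos hzj h2) HA.hJ1
  have hmq : (qb Q : ℝ) * (M / (A.card * B.card)) ≤ 1 := by
    rw [← mul_div_assoc, div_le_one (by positivity)]
    exact_mod_cast hc.big.le
  have hJ3 : (Q : ℝ) * (M / (A.card * B.card)) < (na A j x' : ℝ) / A.card
      + (na B j x' : ℝ) / B.card - (na A j x' : ℝ) / A.card * ((na B j x' : ℝ) / B.card) := by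
    have h1 : ((Q : ℝ) * M + cnt A j {x'} * cnt B j {x'}) < A.card * B.card := by
      exact_mod_cast hj3
    have h2 : (cnt A j {x'} : ℝ) = A.card - na A j x' := by
      rw [eq_sub_iff_add_eq]; exact_mod_cast cA
    have h3 : (cnt B j {x'} : ℝ) = B.card - na B j x' := by
      rw [eq_sub_iff_add_eq]; exact_mod_cast cB
    rw [h2, h3] at h1
    exact XFAL.gJ3 hX hY h1
  have hpA : 1 - (na A j x' : ℝ) / A.card - (na A i y : ℝ) / A.card ≤
      (p00 A j i x' y : ℝ) / A.card :=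
    XFAL.gP HA.hp2 HA.hai HA.c1 HA.c2 (hnn _ _) (hnn _ _)
  have hpB : 1 - (na B j x' : ℝ) / B.card - (na B i y : ℝ) / B.card ≤
      (p00 B j i x' y : ℝ) / B.card :=
    XFAL.gP HB.hp2 HB.hai HB.c1 HB.c2 (hnn _ _) (hnn _ _)
  have hF : FinX Q ((M : ℝ) / (A.card * B.card)) (pur A B j).card (pur B A j).card
      (pur A B i).card (pur B A i).card
      ((na A j x' : ℝ) / A.card) ((na B j x' : ℝ) / B.card)
      ((nz A j x' : ℝ) / A.card) ((nz B j x' : ℝ) / B.card)
      ((na A i y : ℝ) / A.card) ((na B i y : ℝ) / B.card)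
      ((cnt A i (com A B i \ {y}) : ℝ) / A.card) ((pcnt A i (pur A B i) : ℝ) / A.card)
      ((cnt B i (com B A i \ {y}) : ℝ) / B.card) ((pcnt B i (pur B A i) : ℝ) / B.card)
      ((z10 A j i x' y : ℝ) / A.card)
      ((e01 A j i x' (com A B i \ {y}) : ℝ) / A.card)
      ((e11 A j i x' (com A B i \ {y}) : ℝ) / A.card)
      ((e01 A j i x' (pur A B i) : ℝ) / A.card) ((e11 A j i x' (pur A B i) : ℝ) / A.card)
      ((z10 B j i x' y : ℝ) / B.card)
      ((e01 B j i x' (com B A i \ {y}) : ℝ) / B.card)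
      ((e11 B j i x' (com B A i \ {y}) : ℝ) / B.card)
      ((e01 B j i x' (pur B A i) : ℝ) / B.card) ((e11 B j i x' (pur B A i) : ℝ) / B.card)
      ((p00 A j i x' y : ℝ) / A.card) ((p00 B j i x' y : ℝ) / B.card) :=
    { hm := hmq, hm0 := hm0, hk := hk, hl := hl, hkl := by omega, hKL := hKL,
      haj0 := haj0, hbj0 := hbj0, hai0 := hpos _ _ hia hX, hbi0 := hpos _ _ hib hY,
      haj2 := hhalf _ _ hxA hX, hbj2 := hbj2, hai2 := hhalf _ _ hyA hX,
      hbi2 := hhalf _ _ hyB hY,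
      haj := HA.haj, hbj := HB.haj, hJ1 := HA.hJ1, hJ2 := HB.hJ1, hJ3 := hJ3,
      hs := hnn _ _, hzP := hnn _ _, ht := hnn _ _, hwP := hnn _ _,
      hai := HA.hai, hbi := HB.hai, hI1 := HA.hI1, hI2 := HB.hI1,
      hZ10 := hnn _ _, hU01 := hnn _ _, hU11 := hnn _ _, hP01 := hnn _ _, hP11 := hnn _ _,
      hW10 := hnn _ _, hV01 := hnn _ _, hV11 := hnn _ _, hR01 := hnn _ _, hR11 := hnn _ _,
      c1 := HA.c1, c2 := HA.c2, c3 := HB.c1, c4 := HB.c2, r1 := HA.r1, r2 := HB.r1,
      hp := hpA, hr := hpB, hp2 := HA.hp2, hr2 := HB.hp2,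
      q1 := HA.q1, q2 := HB.q1, q3 := HA.q3, q4 := HB.q3, q5 := HA.q5, q6 := HB.q5 }
  by_cases tA : Twin A j i x' y
  · have hz : z10 A j i x' y = 0 := by
      unfold z10
      rw [Finset.card_eq_zero, Finset.image_eq_empty, Finset.filter_eq_empty_iff]
      rintro a ha ⟨h1, h2⟩
      exact h1 ((tA a ha).mpr h2)
    have hz1 : z01 A j i x' y = 0 := by
      unfold z01
      rw [Finset.card_eq_zero, Finset.image_eq_empty, Finset.filter_eq_empty_iff]
      rintro a ha ⟨h1, h2⟩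
      exact h2 ((tA a ha).mp h1)
    have hu : e01 A j i x' (com A B i \ {y}) = 0 := by omega
    have hp : e01 A j i x' (pur A B i) = 0 := by omega
    rw [hz, hu, hp] at hF
    simp only [Nat.cast_zero, zero_div] at hF
    exact ht Q hQ _ _ _ _ _ _ _ _ _ _ _ _ _ _ _ _ _ _ _ _ _ _ _ _ hF
  by_cases tB : Twin B j i x' y
  · have hz : z10 B j i x' y = 0 := by
      unfold z10
      rw [Finset.card_eq_zero, Finset.image_eq_empty, Finset.filter_eq_empty_iff]
      rintro a ha ⟨h1, h2⟩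
      exact h1 ((tB a ha).mpr h2)
    have hz1 : z01 B j i x' y = 0 := by
      unfold z01
      rw [Finset.card_eq_zero, Finset.image_eq_empty, Finset.filter_eq_empty_iff]
      rintro a ha ⟨h1, h2⟩
      exact h2 ((tB a ha).mp h1)
    have hu : e01 B j i x' (com B A i \ {y}) = 0 := by omega
    have hp : e01 B j i x' (pur B A i) = 0 := by omega
    have hF' := hF.swap
    rw [hz, hu, hp] at hF'
    simp only [Nat.cast_zero, zero_div] at hF'
    exact ht Q hQ _ _ _ _ _ _ _ _ _ _ _ _ _ _ _ _ _ _ _ _ _ _ _ _ hF'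
  have V1 := hV ι Q S δ M A B hc j hj i hi hij x' y hcom tA
  have V2 := hV ι Q S δ M B A hc' j hj i hi hij x' y hcom' tB
  rw [t5', t6'] at V1
  rw [t5, t6] at V2
  refine hf Q hQ _ _ _ _ _ _ _ _ _ _ _ _ _ _ _ _ _ _ _ _ _ _ _ _ _ _ _ hF ?_ ?_
  · have h1 : (p00 A j i x' y : ℝ) * (p00 B j i x' y + 2 * Q * (z10 B j i x' y +
        (e01 B j i x' (com B A i \ {y}) + e01 B j i x' (pur B A i)))
        + Q ^ 2 * (e11 B j i x' (com B A i \ {y}) + e11 B j i x' (pur B A i))) ≤
        A.card * B.card := by exact_mod_cast V1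
    exact XFAL.gV hX hY h1
  · have h1 : (p00 B j i x' y : ℝ) * (p00 A j i x' y + 2 * Q * (z10 A j i x' y +
        (e01 A j i x' (com A B i \ {y}) + e01 A j i x' (pur A B i)))
        + Q ^ 2 * (e11 A j i x' (com A B i \ {y}) + e11 A j i x' (pur A B i))) ≤
        B.card * A.card := by exact_mod_cast V2
    exact XFAL.gV hY hX h1

end R745CDX
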